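import Mathlib
import Pool.Agent.W811.LW.Stm

set_option autoImplicit false

namespace Pool.Agent.W862.LWFin

open Pool.Agent.W811.LW
open Finset Filter Topology
open scoped ENNReal

theorem key (G : ℕ) (α β : ℝ) (j t : ℕ) (M : ℝ) (hG : 1000 ≤ G) (hM : 1 ≤ M)
    (hF : FV G α j t β ≤ ENNReal.ofReal M) (v : V3) (hv : v ∈ famV ((G : ℝ) ^ 4) α j) :
    1 / M ^ 2 ≤ NN (aV ((G : ℝ) ^ 4) t β) (bV ((G : ℝ) ^ 4) j t) v := by
  have hG0 : (0 : ℝ) < G := by
    have : (1000 : ℝ) ≤ G := by exact_mod_cast hG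
    linarith
  set D : ℝ := (G : ℝ) ^ 4 with hD
  have hD0 : 0 < D := by positivity
  set y := yV D α j t β j with hy
  have hbd : BddBelow (NN (aV D t β) (bV D j t) '' famV D α j) := by
    refine ⟨0, ?_⟩
    rintro _ ⟨u, _, rfl⟩
    exact le_max_of_le_left (abs_nonneg _)
  have hle : y ≤ NN (aV D t β) (bV D j t) v := csInf_le hbd ⟨v, hv, rfl⟩
  have hpos : 0 < y := by
    have h1 : 1 / D ^ (2 * j + t) ≤ y := by
      have hne : (NN (aV D t β) (bV D j t) '' famV D α j).Nonempty := ⟨_, v, hv, rfl⟩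
      rw [hy]
      unfold yV inN
      apply le_csInf hne
      rintro _ ⟨u, hu, rfl⟩
      apply le_max_of_le_right
      unfold bV
      rw [abs_div, abs_of_pos (by positivity : 0 < D ^ (2 * j + t))]
      apply div_le_div_of_nonneg_right _ (by positivity)
      have : 1 ≤ |u.1| := Int.one_le_abs hu.1
      exact_mod_cast this
    exact lt_of_lt_of_le (by positivity) h1
  have hrs : rs y ≤ M := by
    have h2 : ENNReal.ofReal (et G ((j : ℤ) - (j : ℤ)) * rs (yV D α j t β j)) ≤ ENNReal.ofReal M :=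
      le_trans (ENNReal.le_tsum (f := fun m : ℕ => ENNReal.ofReal (et G ((m : ℤ) - (j : ℤ)) * rs (yV D α j t β m))) j) hF
    rw [ENNReal.ofReal_le_ofReal_iff (by linarith)] at h2
    rw [sub_self] at h2
    simpa [et] using h2
  have hs : 0 < Real.sqrt y := Real.sqrt_pos.2 hpos
  have h3 : 1 / M ≤ Real.sqrt y := by
    unfold rs at hrs
    rw [div_le_iff₀ (by linarith)]
    have := mul_le_mul_of_nonneg_left hrs hs.le
    rwa [mul_inv_cancel₀ hs.ne'] at this
  have h4 : 1 / M ^ 2 ≤ y := by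
    have h5 : (1 / M) ^ 2 ≤ (Real.sqrt y) ^ 2 := by
      apply pow_le_pow_left₀ (by positivity) h3
    rw [Real.sq_sqrt hpos.le] at h5
    calc 1 / M ^ 2 = (1 / M) ^ 2 := by ring
      _ ≤ y := h5
  exact h4.trans hle

theorem fin_ (h : INDC) (hs : SQ2) : FINC := by
  intro L K hL hK
  obtain ⟨G, hG⟩ : ∃ G : ℕ, 1000 ≤ G := ⟨1000, le_refl _⟩
  obtain ⟨b, β, M0, hM0, hb, hF0⟩ := h L K G (1 / 4) (Real.sqrt 2) hL hK hG (by norm_num) (by norm_num) hs
  obtain ⟨M, hM1, hMM⟩ : ∃ M : ℝ, 1 ≤ M ∧ M0 ≤ M := ⟨max M0 1, le_max_right _ _, le_max_left _ _⟩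
  have hG1 : (1000 : ℝ) ≤ G := by exact_mod_cast hG
  have hD1 : 1 < (G : ℝ) ^ 4 := by
    apply one_lt_pow₀ _ (by norm_num)
    linarith
  have hkey : ∀ (j t k : ℕ), L k = 2 * j + t → ∀ v ∈ famV ((G : ℝ) ^ 4) (Real.sqrt 2) j,
      1 / M ^ 2 ≤ NN (aV ((G : ℝ) ^ 4) t (b (j + t))) (bV ((G : ℝ) ^ 4) j t) v := by
    intro j t k hk v hv
    exact key G _ _ j t M hG hM1 ((hF0 j t k hk).trans (ENNReal.ofReal_le_ofReal hMM)) v hv
  clear hF0
  generalize hDdef : (G : ℝ) ^ 4 = D at *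
  have hD0 : 0 < D := by linarith
  set c3 : ℝ := 1 / M ^ 2 with hc3
  have hc3p : 0 < c3 := by positivity
  refine ⟨Real.sqrt 2, β, D, min (1 / 4) (c3 / 2), (c3 / 2) / D ^ 2, hD1, by positivity, by positivity, ?_⟩
  intro k q p p' hq hqc hx1
  have hqr : (0 : ℝ) < q := by exact_mod_cast hq
  set x : ℝ := |(q : ℝ) * Real.sqrt 2 - p| with hx
  have hbad : 1 / 4 ≤ (q : ℝ) * x := hs q p hq
  have hx0 : 0 < x := by
    by_contra hcon
    have : x = 0 := le_antisymm (not_lt.1 hcon) (abs_nonneg _)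
    rw [this] at hbad
    norm_num at hbad
  obtain ⟨j, hj1, hj2⟩ := exists_nat_pow_near (x := 1 / x) (y := D ^ 2)
    (by rw [le_div_iff₀ hx0]; linarith) (one_lt_pow₀ hD1 (by norm_num))
  rw [← pow_mul, le_div_iff₀ hx0] at hj1
  rw [← pow_mul, div_lt_iff₀ hx0] at hj2
  have hq4 : (q : ℝ) ≤ 1 / 4 * D ^ (L k) :=
    hqc.trans (mul_le_mul_of_nonneg_right (min_le_left _ _) (by positivity))
  have hqc3 : (q : ℝ) ≤ c3 / 2 * D ^ (L k) :=
    hqc.trans (mul_le_mul_of_nonneg_right (min_le_right _ _) (by positivity))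
  have h2j : D ^ (2 * j) ≤ D ^ (L k) := by
    have h1 : D ^ (2 * j) * (1 / 4) ≤ D ^ (2 * j) * ((q : ℝ) * x) :=
      mul_le_mul_of_nonneg_left hbad (by positivity)
    have h2 : D ^ (2 * j) * ((q : ℝ) * x) = q * (D ^ (2 * j) * x) := by ring
    have h3 : q * (D ^ (2 * j) * x) ≤ q * 1 := mul_le_mul_of_nonneg_left hj1 hqr.le
    linarith
  have h2jL : 2 * j ≤ L k := (pow_le_pow_iff_right₀ hD1).1 h2j
  obtain ⟨t, ht⟩ : ∃ t, L k = 2 * j + t := ⟨L k - 2 * j, by omega⟩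
  have hv : ((q, p, p') : V3) ∈ famV D (Real.sqrt 2) j := by
    refine ⟨hq.ne', ?_⟩
    rw [mul_comm]
    exact hj1
  have hN := hkey j t k ht _ hv
  have hbV : |bV D j t (q, p, p')| < c3 := by
    unfold bV
    rw [abs_of_pos (by positivity)]
    simp only
    rw [div_lt_iff₀ (by positivity), ← ht]
    have : 0 < c3 * D ^ (L k) := by positivity
    linarith
  have haV : c3 ≤ |aV D t (b (j + t)) (q, p, p')| := by
    unfold NN at hN
    rcases le_max_iff.1 hN with h1 | h1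
    · exact h1
    · exact absurd h1 (not_le.2 hbV)
  have haV2 : c3 ≤ D ^ t * |(q : ℝ) * b (j + t) - p'| := by
    unfold aV at haV
    rw [abs_mul, abs_of_pos (by positivity : 0 < D ^ t)] at haV
    exact haV
  -- the distance
  have hbn := hb (j + t)
  have htri : |(q : ℝ) * b (j + t) - p'| ≤ |(q : ℝ) * β - p'| + q * |β - b (j + t)| := by
    have e : (q : ℝ) * b (j + t) - p' = ((q : ℝ) * β - p') + (-(q * (β - b (j + t)))) := by ring
    rw [e]
    refine (abs_add_le _ _).trans ?_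
    rw [abs_neg, abs_mul, abs_of_pos hqr]
  have hqn : D ^ t * (q * |β - b (j + t)|) ≤ c3 / 2 := by
    have h1 : D ^ t * (q * |β - b (j + t)|) ≤ D ^ t * (q * (1 / D ^ (2 * (j + t)))) := by
      apply mul_le_mul_of_nonneg_left _ (by positivity)
      exact mul_le_mul_of_nonneg_left hbn hqr.le
    have h2 : D ^ t * ((q : ℝ) * (1 / D ^ (2 * (j + t)))) = q / D ^ (L k) := by
      rw [ht]
      have : D ^ (2 * (j + t)) = D ^ t * D ^ (2 * j + t) := by ring
      rw [this]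
      field_simp
    rw [h2] at h1
    have h3 : (q : ℝ) / D ^ (L k) ≤ c3 / 2 := by
      rw [div_le_iff₀ (by positivity)]
      exact hqc3
    exact h1.trans h3
  have hdist : c3 / 2 ≤ D ^ t * |(q : ℝ) * β - p'| := by
    have h1 := mul_le_mul_of_nonneg_left htri (by positivity : 0 ≤ D ^ t)
    rw [mul_add] at h1
    linarith
  have hxx : 1 ≤ D ^ (2 * (j + 1)) * x := hj2.le
  have hfin : c3 / 2 ≤ (D ^ (2 * (j + 1)) * x) * (D ^ t * |(q : ℝ) * β - p'|) := by
    calc c3 / 2 = 1 * (c3 / 2) := by ring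
      _ ≤ _ := mul_le_mul hxx hdist (by positivity) (by positivity)
  rw [div_le_iff₀ (by positivity), ht]
  calc c3 / 2 ≤ (D ^ (2 * (j + 1)) * x) * (D ^ t * |(q : ℝ) * β - p'|) := hfin
    _ = D ^ (2 * j + t) * (x * |(q : ℝ) * β - p'|) * D ^ 2 := by ring

end Pool.Agent.W862.LWFin
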